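import Pool.Agent.Lib.MP_fe2f0d_lc.Proof

/-!
# A separating property of the permutation model
-/

namespace Pool.Agent.Lib.MP_fe2f0d_lc

/-- no element of `Part_fin` has the same stabilizer in `H` as a suitable finitary partition -/
lemma exists_separating (H : Subgroup MM.G) (hH : H ∈ MM.F) : ∃ R ∈ Finitary MM,
    ∀ Q ∈ PartFin MM, ∃ g ∈ H,
      ¬ (actP (g : Equiv.Perm ℕ) Q = Q ↔ actP (g : Equiv.Perm ℕ) R = R) := by
  obtain ⟨k, hk⟩ := hH
  refine ⟨RR (k + 1), RR_mem (k + 1), fun P hP => ?_⟩
  by_contra hcon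
  push Not at hcon
  -- P is fixed by HH (k+1)
  have hfix : ∀ g ∈ HH (k + 1), actP (g : Equiv.Perm ℕ) P = P := by
    intro g hg
    exact (hcon g (hk (HH_anti (Nat.le_succ k) hg))).2 (RR_fix hg)
  -- all large atoms are in the generic block
  have hgen : ∀ x, ¬ x < 2 ^ (k + 1) → Gen P (Sum.inl x) := by
    intro x hx
    have hfin := (exists_Gen hP).union (Set.finite_Iio (2 ^ (k + 1)))
    obtain ⟨y, hy⟩ := hfin.infinite_compl.nonempty
    simp only [Set.mem_compl_iff, Set.mem_union, Set.mem_ofPred_eq, not_or, not_not,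
      Set.mem_Iio] at hy
    have h1 := hfix _ (swP_mem (k := k + 1) (x := y) (y := x) hy.2 hx)
    have h2 := (Gen_act (swP (k + 1) y x) P (Sum.inl y)).mpr hy.1
    simp only [act_inl, swP_apply, sw_x] at h2
    have h3 : actP (swP (k + 1) y x) P = P := h1
    rwa [h3] at h2
  -- the swap
  set x : ℕ := 2 ^ (k + 1) with hx
  set y : ℕ := 2 ^ (k + 2) with hy
  have hxk : ¬ x < 2 ^ k := by
    have : 2 ^ k ≤ 2 ^ (k + 1) := Nat.pow_le_pow_right (by norm_num) (by omega)
    omega
  have hyk : ¬ y < 2 ^ k := by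
    have : 2 ^ k ≤ 2 ^ (k + 2) := Nat.pow_le_pow_right (by norm_num) (by omega)
    omega
  have hmem := swP_mem hxk hyk
  have hlarge : ∀ z, sw k x y z ≠ z → ¬ z < 2 ^ (k + 1) := by
    intro z hz hlt
    apply hz
    rw [sw, if_neg]
    rintro (h | h)
    · have h1 : (z ^^^ x).testBit (k + 1) = false := by
        apply Nat.testBit_lt_two_pow
        exact h.trans_le (Nat.pow_le_pow_right (by norm_num) (by omega))
      rw [Nat.testBit_xor, Nat.testBit_lt_two_pow hlt, hx, Nat.testBit_two_pow_self] at h1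
      simp at h1
    · have h1 : (z ^^^ y).testBit (k + 2) = false := by
        apply Nat.testBit_lt_two_pow
        exact h.trans_le (Nat.pow_le_pow_right (by norm_num) (by omega))
      have hlt' : z < 2 ^ (k + 2) := hlt.trans_le (Nat.pow_le_pow_right (by norm_num) (by omega))
      rw [Nat.testBit_xor, Nat.testBit_lt_two_pow hlt', hy, Nat.testBit_two_pow_self] at h1
      simp at h1
  have hrel : ∀ a, P (act (swP k x y) a) a := by
    intro a
    rcases a with z | n
    · simp only [act_inl, swP_apply]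
      by_cases hz : sw k x y z = z
      · rw [hz]
      · have h1 := hlarge z hz
        have h2 := hlarge (sw k x y z) (by rw [sw_sw]; exact fun h => hz h.symm)
        exact rel_of_Gen (hgen _ h2) (hgen _ h1)
    · exact P.refl' _
  have hinv : (swP k x y)⁻¹ = swP k x y := by
    ext z
    rw [Equiv.Perm.inv_eq_iff_eq]
    exact (sw_sw k x y z).symm
  have hPfix : actP (swP k x y) P = P := by
    apply setoid_ext
    intro a b
    rw [actP_apply, hinv]
    constructor
    · intro h
      exact P.trans' (P.symm' (hrel a)) (P.trans' h (hrel b))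
    · intro h
      exact P.trans' (hrel a) (P.trans' h (P.symm' (hrel b)))
  have hQ : actP (swP k x y) (RR (k + 1)) = RR (k + 1) := by
    exact (hcon _ (hk hmem)).1 hPfix
  have h1 : RR (k + 1) (Sum.inl x) (Sum.inl (x ^^^ 2 ^ k)) := by
    rw [RR_ll, ← Nat.xor_assoc, Nat.xor_self, Nat.zero_xor]
    exact Nat.pow_lt_pow_right (by norm_num) (by omega)
  rw [← hQ, actP_apply, hinv] at h1
  simp only [act_inl, swP_apply, sw_x] at h1
  have h2 : sw k x y (x ^^^ 2 ^ k) = x ^^^ 2 ^ k := by
    rw [sw, if_neg]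
    rintro (h | h)
    · have h3 : x ^^^ 2 ^ k ^^^ x = 2 ^ k := by
        rw [Nat.xor_comm x, Nat.xor_assoc, Nat.xor_self, Nat.xor_zero]
      rw [h3] at h
      exact lt_irrefl _ h
    · have h3 : (x ^^^ 2 ^ k ^^^ y).testBit (k + 2) = false := by
        apply Nat.testBit_lt_two_pow
        exact h.trans_le (Nat.pow_le_pow_right (by norm_num) (by omega))
      rw [Nat.testBit_xor, Nat.testBit_xor, hx, hy, Nat.testBit_two_pow_self,
        Nat.testBit_two_pow, Nat.testBit_two_pow] at h3
      simp at h3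
  rw [h2, RR_ll] at h1
  have h3 : (y ^^^ (x ^^^ 2 ^ k)).testBit (k + 2) = false := by
    apply Nat.testBit_lt_two_pow
    exact h1.trans_le (Nat.pow_le_pow_right (by norm_num) (by omega))
  rw [Nat.testBit_xor, Nat.testBit_xor, hx, hy, Nat.testBit_two_pow_self,
    Nat.testBit_two_pow, Nat.testBit_two_pow] at h3
  simp at h3


end Pool.Agent.Lib.MP_fe2f0d_lc
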