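import Pool.Agent.Lib.MP_1929a6_lc.Statement

/-!
# Partitions in a model of `ZF`

Definitions for the statement of `MP_fe2f0d_lc.ZFModel`; the notions of function, injection,
bijection and finite set are those of `Pool.Agent.Lib.MP_1929a6_lc.Statement`.
-/

universe u

namespace Pool.Agent.Lib.MP_fe2f0d_lc

open Pool.Agent.Lib.MP_1929a6_lc

variable {M : Type u} (E : M → M → Prop)

/-- `P` is a partition of `A`: its elements (the blocks) are nonempty subsets of `A`, and every
element of `A` is in exactly one block. -/
def IsPartition (A P : M) : Prop :=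
  (∀ x, E x P → (∃ z, E z x) ∧ ∀ z, E z x → E z A) ∧ ∀ a, E a A → ∃! x, E x P ∧ E a x

/-- `S` is `Part_fin(A)`, the set of the partitions of `A` that have finitely many blocks. -/
def IsPartFin (A S : M) : Prop := ∀ P, E P S ↔ IsPartition E A P ∧ IsFinite E P

/-- `T` is `𝓑(A)`, the set of the partitions of `A` all of whose blocks are finite. -/
def IsFinitary (A T : M) : Prop := ∀ P, E P T ↔ IsPartition E A P ∧ ∀ x, E x P → IsFinite E x

end Pool.Agent.Lib.MP_fe2f0d_lc
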