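import Mathlib

set_option autoImplicit false

namespace Pool.Agent.Lib.MP_fe2f0d_lc

/-!
Fraenkel-Mostowski permutation models and partitions of `A = D ∪ ω` in them: the definitions
used in the statement of `MP_fe2f0d_lc.PermModel`.
-/

/-- The data of a Fraenkel-Mostowski permutation model: a set `D` of atoms, a group `G` of
permutations of `D` and a normal filter `F` of subgroups of `G` containing the stabilizer of
every atom. -/
structure FMData (D : Type) where
  G : Subgroup (Equiv.Perm D)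
  F : Set (Subgroup G)
  top_mem : ⊤ ∈ F
  up : ∀ H K : Subgroup G, H ∈ F → H ≤ K → K ∈ F
  inf : ∀ H K : Subgroup G, H ∈ F → K ∈ F → H ⊓ K ∈ F
  conj : ∀ (g : G) (H : Subgroup G), H ∈ F → H.map (MulAut.conj g).toMonoidHom ∈ F
  atom : ∀ a : D, MulAction.stabilizer G a ∈ F

variable {D : Type}

/-- The action of a permutation of the atoms on `A = D ∪ ω` (the elements of `ω` are pure sets,
hence fixed). -/
def act (g : Equiv.Perm D) : D ⊕ ℕ → D ⊕ ℕ := Sum.map g id

/-- The action of a permutation of the atoms on partitions of `A = D ∪ ω`; a partition is given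
by its equivalence relation. -/
def actP (g : Equiv.Perm D) (P : Setoid (D ⊕ ℕ)) : Setoid (D ⊕ ℕ) := P.comap (act g⁻¹)

/-- `P` is a partition of `A = D ∪ ω` that belongs to the permutation model: `P` is symmetric and
every block of `P` is symmetric (the points of `A` always are). -/
def InModel (M : FMData D) (P : Setoid (D ⊕ ℕ)) : Prop :=
  (∃ H ∈ M.F, ∀ g ∈ H, actP (g : Equiv.Perm D) P = P) ∧
    ∀ a, ∃ H ∈ M.F, ∀ g ∈ H, act (g : Equiv.Perm D) '' {b | P a b} = {b | P a b}

/-- The set `Part_fin(A)` of the permutation model, `A = D ∪ ω`: the partitions with finitely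
many blocks. -/
def PartFin (M : FMData D) : Set (Setoid (D ⊕ ℕ)) :=
  {P | InModel M P ∧ Finite (Quotient P)}

/-- The set `𝓑(A)` of the permutation model, `A = D ∪ ω`: the partitions all of whose blocks are
finite. -/
def Finitary (M : FMData D) : Set (Setoid (D ⊕ ℕ)) :=
  {P | InModel M P ∧ ∀ a, {b | P a b}.Finite}

/-- `|X| ≤ |Y|` holds in the permutation model: some symmetric function `f` maps `X` injectively
into `Y`. -/
def LeModel (M : FMData D) (X Y : Set (Setoid (D ⊕ ℕ))) : Prop :=
  ∃ f : Setoid (D ⊕ ℕ) → Setoid (D ⊕ ℕ), Set.MapsTo f X Y ∧ Set.InjOn f X ∧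
    ∃ H ∈ M.F, ∀ g ∈ H, ∀ P ∈ X, f (actP (g : Equiv.Perm D) P) = actP (g : Equiv.Perm D) (f P)

/-- `|X| = |Y|` holds in the permutation model: some symmetric function `f` is a bijection from
`X` onto `Y`. -/
def EqModel (M : FMData D) (X Y : Set (Setoid (D ⊕ ℕ))) : Prop :=
  ∃ f : Setoid (D ⊕ ℕ) → Setoid (D ⊕ ℕ), Set.BijOn f X Y ∧
    ∃ H ∈ M.F, ∀ g ∈ H, ∀ P ∈ X, f (actP (g : Equiv.Perm D) P) = actP (g : Equiv.Perm D) (f P)

end Pool.Agent.Lib.MP_fe2f0d_lc
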