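import Pool.Agent.Lib.MP_fe2f0d_lc.Defs

set_option autoImplicit false

namespace Pool.Agent.Lib.MP_fe2f0d_lc

variable {D : Type}

/-! ## Basic facts -/

@[simp] lemma act_inl (g : Equiv.Perm D) (d : D) : act g (Sum.inl d) = Sum.inl (g d) := rfl
@[simp] lemma act_inr (g : Equiv.Perm D) (n : ℕ) : act g (Sum.inr n) = Sum.inr n := rfl

lemma act_mul (g h : Equiv.Perm D) (a : D ⊕ ℕ) : act (g * h) a = act g (act h a) := by
  cases a <;> simp

lemma act_one (a : D ⊕ ℕ) : act (1 : Equiv.Perm D) a = a := by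
  cases a <;> simp

@[simp] lemma act_inv_act (g : Equiv.Perm D) (a : D ⊕ ℕ) : act g⁻¹ (act g a) = a := by
  rw [← act_mul]; simp [act_one]

@[simp] lemma act_act_inv (g : Equiv.Perm D) (a : D ⊕ ℕ) : act g (act g⁻¹ a) = a := by
  rw [← act_mul]; simp [act_one]

lemma actP_apply (g : Equiv.Perm D) (P : Setoid (D ⊕ ℕ)) (a b : D ⊕ ℕ) :
    actP g P a b ↔ P (act g⁻¹ a) (act g⁻¹ b) := Iff.rfl

lemma actP_act (g : Equiv.Perm D) (P : Setoid (D ⊕ ℕ)) (a b : D ⊕ ℕ) :
    actP g P (act g a) (act g b) ↔ P a b := by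
  rw [actP_apply]; simp

lemma setoid_ext {P Q : Setoid (D ⊕ ℕ)} (h : ∀ a b, P a b ↔ Q a b) : P = Q := Setoid.ext h

/-! ## The group and the filter -/

/-- finitary permutations of the naturals -/
def FS : Subgroup (Equiv.Perm ℕ) where
  carrier := {g | {x | g x ≠ x}.Finite}
  mul_mem' := by
    intro a b ha hb
    refine (Set.Finite.union ha hb).subset ?_
    intro x hx
    simp only [Set.mem_ofPred_eq, Equiv.Perm.mul_apply, Set.mem_union] at *
    by_contra hc
    push Not at hc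
    rw [hc.2] at hx
    exact hx hc.1
  one_mem' := by simp
  inv_mem' := by
    intro a ha
    refine Set.Finite.subset ha ?_
    intro x hx
    simp only [Set.mem_ofPred_eq] at *
    intro hc
    apply hx
    rw [Equiv.Perm.inv_eq_iff_eq]
    exact hc.symm

/-- `HH k`: finitary permutations fixing all `x < 2 ^ k` and preserving the equivalence relations
`x ^^^ y < 2 ^ n` for `n ≤ k`. -/
def HH (k : ℕ) : Subgroup FS where
  carrier := {g | (∀ x < 2 ^ k, (g : Equiv.Perm ℕ) x = x) ∧ ∀ n ≤ k, ∀ x y : ℕ,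
    (x ^^^ y < 2 ^ n ↔ (g : Equiv.Perm ℕ) x ^^^ (g : Equiv.Perm ℕ) y < 2 ^ n)}
  mul_mem' := by
    rintro a b ⟨ha1, ha2⟩ ⟨hb1, hb2⟩
    refine ⟨fun x hx => ?_, fun n hn x y => ?_⟩
    · simp only [Subgroup.coe_mul, Equiv.Perm.mul_apply]
      rw [hb1 x hx, ha1 x hx]
    · simp only [Subgroup.coe_mul, Equiv.Perm.mul_apply]
      rw [hb2 n hn x y, ha2 n hn]
  one_mem' := by simp
  inv_mem' := by
    rintro a ⟨ha1, ha2⟩
    refine ⟨fun x hx => ?_, fun n hn x y => ?_⟩
    · simp only [Subgroup.coe_inv, Equiv.Perm.inv_eq_iff_eq]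
      exact (ha1 x hx).symm
    · have := ha2 n hn ((a : Equiv.Perm ℕ)⁻¹ x) ((a : Equiv.Perm ℕ)⁻¹ y)
      have e : ∀ z, (a : Equiv.Perm ℕ) ((a : Equiv.Perm ℕ)⁻¹ z) = z := fun z => by simp
      rw [e, e] at this
      simp only [Subgroup.coe_inv]
      exact this.symm

lemma HH_anti {k l : ℕ} (h : k ≤ l) : HH l ≤ HH k := by
  rintro g ⟨h1, h2⟩
  exact ⟨fun x hx => h1 x (hx.trans_le (Nat.pow_le_pow_right (by norm_num) h)),
    fun n hn => h2 n (hn.trans h)⟩

/-- the permutation model -/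
def MM : FMData ℕ where
  G := FS
  F := {H | ∃ k, HH k ≤ H}
  top_mem := ⟨0, le_top⟩
  up := fun H K ⟨k, hk⟩ h => ⟨k, hk.trans h⟩
  inf := fun H K ⟨k, hk⟩ ⟨l, hl⟩ => ⟨max k l,
    le_inf ((HH_anti (le_max_left _ _)).trans hk) ((HH_anti (le_max_right _ _)).trans hl)⟩
  conj := by
    rintro g H ⟨k, hk⟩
    obtain ⟨B, hB⟩ : ∃ B : ℕ, ∀ x, (g : Equiv.Perm ℕ) x ≠ x → x < B := by
      have hg : {x | (g : Equiv.Perm ℕ) x ≠ x}.Finite := g.2
      obtain ⟨B, hB⟩ := hg.bddAbove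
      exact ⟨B + 1, fun x hx => Nat.lt_succ_of_le (hB hx)⟩
    refine ⟨max k B, ?_⟩
    intro h hh
    have hBk : B ≤ 2 ^ (max k B) :=
      (le_max_right k B).trans (Nat.lt_two_pow_self).le
    rw [Subgroup.mem_map]
    refine ⟨h, hk (HH_anti (le_max_left _ _) hh), ?_⟩
    obtain ⟨h1, -⟩ := hh
    have hfix : ∀ x, ¬ x < 2 ^ (max k B) → (g : Equiv.Perm ℕ) x = x := by
      intro x hx
      by_contra hc
      exact hx ((hB x hc).trans_le hBk)
    have hg1 : ∀ x, x < 2 ^ (max k B) → (g : Equiv.Perm ℕ) x < 2 ^ (max k B) := by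
      intro x hx
      by_cases hc : (g : Equiv.Perm ℕ) x = x
      · rw [hc]; exact hx
      · have : (g : Equiv.Perm ℕ) ((g : Equiv.Perm ℕ) x) ≠ (g : Equiv.Perm ℕ) x := by
          intro he
          exact hc ((g : Equiv.Perm ℕ).injective he)
        exact (hB _ this).trans_le hBk
    have hh2 : ∀ x, ¬ x < 2 ^ (max k B) → ¬ (h : Equiv.Perm ℕ) x < 2 ^ (max k B) := by
      intro x hx hc
      have := h1 _ hc
      have := (h : Equiv.Perm ℕ).injective this
      rw [this] at hc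
      exact hx hc
    have hcomm : ∀ x, (g : Equiv.Perm ℕ) ((h : Equiv.Perm ℕ) x) =
        (h : Equiv.Perm ℕ) ((g : Equiv.Perm ℕ) x) := by
      intro x
      by_cases hx : x < 2 ^ (max k B)
      · rw [h1 x hx, h1 _ (hg1 x hx)]
      · rw [hfix x hx, hfix _ (hh2 x hx)]
    show g * h * g⁻¹ = h
    rw [mul_inv_eq_iff_eq_mul]
    ext x
    simp [hcomm]
  atom := by
    intro a
    refine ⟨a, ?_⟩
    rintro g ⟨h1, -⟩
    rw [MulAction.mem_stabilizer_iff]
    exact h1 a Nat.lt_two_pow_self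

/-- the swap of two cosets -/
def sw (k x y z : ℕ) : ℕ := if z ^^^ x < 2 ^ k ∨ z ^^^ y < 2 ^ k then z ^^^ (x ^^^ y) else z

lemma xor_lt {a b n : ℕ} (ha : a < 2 ^ n) (hb : b < 2 ^ n) : a ^^^ b < 2 ^ n :=
  Nat.xor_lt_two_pow ha hb

lemma sw_sw (k x y z : ℕ) : sw k x y (sw k x y z) = z := by
  unfold sw
  by_cases h : z ^^^ x < 2 ^ k ∨ z ^^^ y < 2 ^ k
  · rw [if_pos h]
    have h1 : z ^^^ (x ^^^ y) ^^^ x = z ^^^ y := by
      rw [Nat.xor_assoc, Nat.xor_comm x y, Nat.xor_assoc y x x, Nat.xor_self, Nat.xor_zero]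
    have h2 : z ^^^ (x ^^^ y) ^^^ y = z ^^^ x := by
      rw [Nat.xor_assoc, Nat.xor_assoc x y y, Nat.xor_self, Nat.xor_zero]
    rw [h1, h2, if_pos h.symm, Nat.xor_assoc, Nat.xor_self, Nat.xor_zero]
  · rw [if_neg h, if_neg h]

lemma sw_spec (k x y n : ℕ) (hn : n ≤ k) (z z' : ℕ) (h : z ^^^ z' < 2 ^ n) :
    sw k x y z ^^^ sw k x y z' < 2 ^ n := by
  have hk : z ^^^ z' < 2 ^ k := h.trans_le (Nat.pow_le_pow_right (by norm_num) hn)
  have key : ∀ w, z ^^^ w < 2 ^ k ↔ z' ^^^ w < 2 ^ k := by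
    intro w
    constructor
    · intro h1
      have : z' ^^^ w = (z ^^^ z') ^^^ (z ^^^ w) := by
        rw [Nat.xor_comm z z', Nat.xor_assoc, ← Nat.xor_assoc z z w, Nat.xor_self,
          Nat.zero_xor]
      rw [this]
      exact xor_lt hk h1
    · intro h1
      have : z ^^^ w = (z ^^^ z') ^^^ (z' ^^^ w) := by
        rw [Nat.xor_assoc, ← Nat.xor_assoc z' z' w, Nat.xor_self, Nat.zero_xor]
      rw [this]
      exact xor_lt hk h1
  unfold sw
  by_cases hz : z ^^^ x < 2 ^ k ∨ z ^^^ y < 2 ^ k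
  · have hz' : z' ^^^ x < 2 ^ k ∨ z' ^^^ y < 2 ^ k := by
      rw [← key x, ← key y]; exact hz
    rw [if_pos hz, if_pos hz']
    have : z ^^^ (x ^^^ y) ^^^ (z' ^^^ (x ^^^ y)) = z ^^^ z' := by
      rw [Nat.xor_comm z' (x ^^^ y), Nat.xor_assoc, ← Nat.xor_assoc (x ^^^ y) (x ^^^ y) z',
        Nat.xor_self, Nat.zero_xor]
    rw [this]
    exact h
  · have hz' : ¬ (z' ^^^ x < 2 ^ k ∨ z' ^^^ y < 2 ^ k) := by
      rw [← key x, ← key y]; exact hz
    rw [if_neg hz, if_neg hz']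
    exact h

/-- the swap as a permutation -/
def swP (k x y : ℕ) : Equiv.Perm ℕ := ⟨sw k x y, sw k x y, sw_sw k x y, sw_sw k x y⟩

lemma swP_apply (k x y z : ℕ) : swP k x y z = sw k x y z := rfl

lemma swP_fin (k x y : ℕ) : swP k x y ∈ FS := by
  show {z | swP k x y z ≠ z}.Finite
  have h1 : {z | z ^^^ x < 2 ^ k}.Finite := by
    refine ((Set.finite_Iio (2 ^ k)).image (fun w => w ^^^ x)).subset ?_
    intro z hz
    refine ⟨z ^^^ x, hz, ?_⟩
    simp only
    rw [Nat.xor_assoc, Nat.xor_self, Nat.xor_zero]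
  have h2 : {z | z ^^^ y < 2 ^ k}.Finite := by
    refine ((Set.finite_Iio (2 ^ k)).image (fun w => w ^^^ y)).subset ?_
    intro z hz
    refine ⟨z ^^^ y, hz, ?_⟩
    simp only
    rw [Nat.xor_assoc, Nat.xor_self, Nat.xor_zero]
  refine (h1.union h2).subset ?_
  intro z hz
  by_contra hc
  apply hz
  rw [swP_apply, sw, if_neg]
  simpa using hc

lemma sw_fix {k x y z : ℕ} (hx : ¬ x < 2 ^ k) (hy : ¬ y < 2 ^ k) (hz : z < 2 ^ k) :
    sw k x y z = z := by
  rw [sw, if_neg]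
  rintro (h | h)
  · apply hx
    have : x = z ^^^ (z ^^^ x) := by rw [← Nat.xor_assoc, Nat.xor_self, Nat.zero_xor]
    rw [this]
    exact xor_lt hz h
  · apply hy
    have : y = z ^^^ (z ^^^ y) := by rw [← Nat.xor_assoc, Nat.xor_self, Nat.zero_xor]
    rw [this]
    exact xor_lt hz h

lemma swP_mem {k x y : ℕ} (hx : ¬ x < 2 ^ k) (hy : ¬ y < 2 ^ k) :
    (⟨swP k x y, swP_fin k x y⟩ : FS) ∈ HH k := by
  refine ⟨fun z hz => sw_fix hx hy hz, fun n hn z z' => ⟨sw_spec k x y n hn z z', fun h => ?_⟩⟩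
  have := sw_spec k x y n hn _ _ h
  simp only [swP_apply] at this
  rwa [sw_sw, sw_sw] at this

lemma sw_x (k x y : ℕ) : sw k x y x = y := by
  rw [sw, if_pos]
  · rw [← Nat.xor_assoc, Nat.xor_self, Nat.zero_xor]
  · left
    rw [Nat.xor_self]
    positivity

/-! ## Symmetric partitions with finitely many blocks -/

/-- the generic block: `a` lies in a block that contains all but finitely many atoms -/
def Gen (P : Setoid (ℕ ⊕ ℕ)) (a : ℕ ⊕ ℕ) : Prop := {d : ℕ | ¬ P (Sum.inl d) a}.Finite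

lemma Gen_of_rel {P : Setoid (ℕ ⊕ ℕ)} {a b : ℕ ⊕ ℕ} (h : P a b) (ha : Gen P a) : Gen P b := by
  refine Set.Finite.subset ha ?_
  intro d hd hc
  exact hd (P.trans' hc h)

lemma rel_of_Gen {P : Setoid (ℕ ⊕ ℕ)} {a b : ℕ ⊕ ℕ} (ha : Gen P a) (hb : Gen P b) : P a b := by
  obtain ⟨d, hd⟩ := (ha.union hb).infinite_compl.nonempty
  simp only [Set.mem_compl_iff, Set.mem_union, Set.mem_ofPred_eq, not_or, not_not] at hd
  exact P.trans' (P.symm' hd.1) hd.2

/-- partitions with finitely many symmetric blocks have a cofinite block -/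
lemma exists_Gen {P : Setoid (ℕ ⊕ ℕ)} (hP : P ∈ PartFin MM) :
    {d : ℕ | ¬ Gen P (Sum.inl d)}.Finite := by
  obtain ⟨⟨-, h2⟩, h3⟩ := hP
  obtain ⟨q, hq⟩ := Finite.exists_infinite_fiber
    (fun d : ℕ => (Quotient.mk P (Sum.inl d) : Quotient P))
  have hinf : Set.Infinite {d : ℕ | (Quotient.mk P (Sum.inl d) : Quotient P) = q} := by
    rw [← Set.infinite_coe_iff]
    exact hq
  obtain ⟨d0, hd0⟩ := hinf.nonempty
  obtain ⟨H, ⟨k, hk⟩, hH⟩ := h2 (Sum.inl d0)
  have hcl : ∀ d, (Quotient.mk P (Sum.inl d) : Quotient P) = q ↔ P (Sum.inl d0) (Sum.inl d) := by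
    intro d
    rw [← hd0.out, Quotient.eq]
    exact ⟨fun h => P.symm' h, fun h => P.symm' h⟩
  have hinf' : Set.Infinite {d : ℕ | P (Sum.inl d0) (Sum.inl d)} := by
    refine hinf.mono ?_
    intro d hd
    exact (hcl d).mp hd
  obtain ⟨x, hx, hxk⟩ := hinf'.exists_gt (2 ^ k)
  have hall : ∀ y, ¬ y < 2 ^ k → P (Sum.inl d0) (Sum.inl y) := by
    intro y hy
    have hmem := swP_mem (k := k) (x := x) (y := y) (by omega) hy
    have := hH _ (hk hmem)
    have h5 : act (swP k x y) (Sum.inl x) ∈ act (swP k x y) '' {b | P (Sum.inl d0) b} :=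
      ⟨_, hx, rfl⟩
    have h6 : act (swP k x y) '' {b | P (Sum.inl d0) b} = {b | P (Sum.inl d0) b} := this
    rw [h6] at h5
    simpa [swP_apply, sw_x] using h5
  refine (Set.finite_Iio (2 ^ k)).subset ?_
  intro d hd
  by_contra hc
  apply hd
  refine (Set.finite_Iio (2 ^ k)).subset ?_
  intro d' hd'
  by_contra hc'
  exact hd' (P.trans' (P.symm' (hall d' hc')) (hall d hc))

/-! ## The injection from `Part_fin(A)` into `𝓑(A)` -/

/-- labels -/
inductive Lab : Type
  | pt (a : ℕ ⊕ ℕ) : Lab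
  | num (n : ℕ) : Lab
  | blk (S : Set (ℕ ⊕ ℕ)) : Lab

/-- least natural number in the block of `a` -/
noncomputable def mn (P : Setoid (ℕ ⊕ ℕ)) (a : ℕ ⊕ ℕ) : ℕ := sInf {n | P a (Sum.inr n)}

/-- the real coded into the odd numbers -/
def bit (P : Setoid (ℕ ⊕ ℕ)) (j : ℕ) : Prop :=
  (j % 2 = 0 ∧ P (Sum.inr (Nat.unpair (j / 2)).1) (Sum.inr (Nat.unpair (j / 2)).2)) ∨
    (j % 2 = 1 ∧ Gen P (Sum.inr (j / 2)))

open Classical in
/-- the label of a point -/
noncomputable def lab (P : Setoid (ℕ ⊕ ℕ)) : ℕ ⊕ ℕ → Lab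
  | Sum.inl d =>
    if Gen P (Sum.inl d) then Lab.pt (Sum.inl d)
    else if ∀ b, P (Sum.inl d) b → b = Sum.inl d then Lab.num 0
    else if ∃ n, P (Sum.inl d) (Sum.inr n) then Lab.num (2 * mn P (Sum.inl d) + 2)
    else Lab.blk {b | P (Sum.inl d) b}
  | Sum.inr n => if n % 4 = 3 ∧ bit P (n / 4) then Lab.num (n - 2) else Lab.num n

/-- the code of a partition -/
noncomputable def code (P : Setoid (ℕ ⊕ ℕ)) : Setoid (ℕ ⊕ ℕ) := Setoid.ker (lab P)

lemma code_iff (P : Setoid (ℕ ⊕ ℕ)) (a b : ℕ ⊕ ℕ) : code P a b ↔ lab P a = lab P b := Iff.rfl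

lemma lab_gen {P : Setoid (ℕ ⊕ ℕ)} {d : ℕ} (h : Gen P (Sum.inl d)) :
    lab P (Sum.inl d) = Lab.pt (Sum.inl d) := by
  simp [lab, h]

lemma lab_single {P : Setoid (ℕ ⊕ ℕ)} {d : ℕ} (h : ¬ Gen P (Sum.inl d))
    (h2 : ∀ b, P (Sum.inl d) b → b = Sum.inl d) : lab P (Sum.inl d) = Lab.num 0 := by
  simp only [lab]
  rw [if_neg h, if_pos h2]

lemma lab_num {P : Setoid (ℕ ⊕ ℕ)} {d n : ℕ} (h : ¬ Gen P (Sum.inl d))
    (h3 : P (Sum.inl d) (Sum.inr n)) : lab P (Sum.inl d) = Lab.num (2 * mn P (Sum.inl d) + 2) := by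
  simp only [lab]
  rw [if_neg h, if_neg, if_pos ⟨n, h3⟩]
  intro h2
  have := h2 _ h3
  simp at this

lemma lab_blk {P : Setoid (ℕ ⊕ ℕ)} {d : ℕ} (h : ¬ Gen P (Sum.inl d))
    (h2 : ¬ ∀ b, P (Sum.inl d) b → b = Sum.inl d) (h3 : ¬ ∃ n, P (Sum.inl d) (Sum.inr n)) :
    lab P (Sum.inl d) = Lab.blk {b | P (Sum.inl d) b} := by
  simp only [lab]
  rw [if_neg h, if_neg h2, if_neg h3]

lemma lab_inl_cases (P : Setoid (ℕ ⊕ ℕ)) (d : ℕ) :
    (Gen P (Sum.inl d) ∧ lab P (Sum.inl d) = Lab.pt (Sum.inl d)) ∨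
    (¬ Gen P (Sum.inl d) ∧ (∀ b, P (Sum.inl d) b → b = Sum.inl d) ∧
      lab P (Sum.inl d) = Lab.num 0) ∨
    (¬ Gen P (Sum.inl d) ∧ (∃ n, P (Sum.inl d) (Sum.inr n)) ∧
      lab P (Sum.inl d) = Lab.num (2 * mn P (Sum.inl d) + 2)) ∨
    (¬ Gen P (Sum.inl d) ∧ (¬ ∀ b, P (Sum.inl d) b → b = Sum.inl d) ∧
      (¬ ∃ n, P (Sum.inl d) (Sum.inr n)) ∧ lab P (Sum.inl d) = Lab.blk {b | P (Sum.inl d) b}) := by
  by_cases h : Gen P (Sum.inl d)
  · exact Or.inl ⟨h, lab_gen h⟩
  · by_cases h2 : ∀ b, P (Sum.inl d) b → b = Sum.inl d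
    · exact Or.inr (Or.inl ⟨h, h2, lab_single h h2⟩)
    · by_cases h3 : ∃ n, P (Sum.inl d) (Sum.inr n)
      · obtain ⟨n, hn⟩ := h3
        exact Or.inr (Or.inr (Or.inl ⟨h, ⟨n, hn⟩, lab_num h hn⟩))
      · exact Or.inr (Or.inr (Or.inr ⟨h, h2, h3, lab_blk h h2 h3⟩))

lemma lab_even (P : Setoid (ℕ ⊕ ℕ)) (n : ℕ) : lab P (Sum.inr (2 * n)) = Lab.num (2 * n) := by
  simp only [lab]
  rw [if_neg]
  rintro ⟨h, -⟩
  omega

lemma lab_one (P : Setoid (ℕ ⊕ ℕ)) (j : ℕ) :
    lab P (Sum.inr (4 * j + 1)) = Lab.num (4 * j + 1) := by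
  simp only [lab]
  rw [if_neg]
  rintro ⟨h, -⟩
  omega

lemma lab_inr_num (P : Setoid (ℕ ⊕ ℕ)) (n : ℕ) :
    ∃ m, lab P (Sum.inr n) = Lab.num m ∧ (n = m ∨ n = m + 2) := by
  simp only [lab]
  by_cases h : n % 4 = 3 ∧ bit P (n / 4)
  · rw [if_pos h]
    exact ⟨n - 2, rfl, Or.inr (by omega)⟩
  · rw [if_neg h]
    exact ⟨n, rfl, Or.inl rfl⟩

lemma bit_iff (P : Setoid (ℕ ⊕ ℕ)) (j : ℕ) :
    bit P j ↔ code P (Sum.inr (4 * j + 1)) (Sum.inr (4 * j + 3)) := by
  rw [code_iff, lab_one]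
  simp only [lab]
  have h1 : (4 * j + 3) / 4 = j := by omega
  have h2 : (4 * j + 3) % 4 = 3 := by omega
  rw [h1]
  by_cases h : bit P j
  · rw [if_pos ⟨h2, h⟩]
    simp only [h, true_iff]
    congr 1
  · rw [if_neg (fun hc => h hc.2)]
    simp only [h, false_iff]
    intro hc
    injection hc with hc
    omega

/-- the blocks of the code are finite -/
lemma code_finite {P : Setoid (ℕ ⊕ ℕ)} (hP : P ∈ PartFin MM) (a : ℕ ⊕ ℕ) :
    {b | code P a b}.Finite := by
  have hfin := exists_Gen hP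
  have h1 : {b : ℕ ⊕ ℕ | ∃ d, ¬ Gen P (Sum.inl d) ∧ b = Sum.inl d}.Finite := by
    refine (hfin.image Sum.inl).subset ?_
    rintro b ⟨d, hd, rfl⟩
    exact ⟨d, hd, rfl⟩
  have h2 : ∀ m : ℕ, {b : ℕ ⊕ ℕ | ∃ n, b = Sum.inr n ∧ (n = m ∨ n = m + 2)}.Finite := by
    intro m
    refine (Set.toFinite {(Sum.inr m : ℕ ⊕ ℕ), Sum.inr (m + 2)}).subset ?_
    rintro b ⟨n, rfl, rfl | rfl⟩ <;> simp
  cases hl : lab P a with
  | pt c =>
    refine (h1.union (Set.finite_singleton c)).subset ?_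
    intro b hb
    have hb : lab P a = lab P b := hb
    rw [hl] at hb
    rcases b with d | n
    · rcases lab_inl_cases P d with ⟨-, h⟩ | ⟨h, -⟩ | ⟨h, -⟩ | ⟨h, -⟩
      · rw [h] at hb
        injection hb with hb
        right
        exact hb.symm
      · exact Or.inl ⟨d, h, rfl⟩
      · exact Or.inl ⟨d, h, rfl⟩
      · exact Or.inl ⟨d, h, rfl⟩
    · obtain ⟨m, hm, -⟩ := lab_inr_num P n
      rw [hm] at hb
      cases hb
  | num m =>
    refine (h1.union (h2 m)).subset ?_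
    intro b hb
    have hb : lab P a = lab P b := hb
    rw [hl] at hb
    rcases b with d | n
    · rcases lab_inl_cases P d with ⟨-, h⟩ | ⟨h, -⟩ | ⟨h, -⟩ | ⟨h, -⟩
      · rw [h] at hb
        cases hb
      · exact Or.inl ⟨d, h, rfl⟩
      · exact Or.inl ⟨d, h, rfl⟩
      · exact Or.inl ⟨d, h, rfl⟩
    · obtain ⟨m', hm, h⟩ := lab_inr_num P n
      rw [hm] at hb
      injection hb with hb
      subst hb
      exact Or.inr ⟨n, rfl, h⟩
  | blk S =>
    refine h1.subset ?_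
    intro b hb
    have hb : lab P a = lab P b := hb
    rw [hl] at hb
    rcases b with d | n
    · rcases lab_inl_cases P d with ⟨-, h⟩ | ⟨h, -⟩ | ⟨h, -⟩ | ⟨h, -⟩
      · rw [h] at hb
        cases hb
      · exact ⟨d, h, rfl⟩
      · exact ⟨d, h, rfl⟩
      · exact ⟨d, h, rfl⟩
    · obtain ⟨m', hm, h⟩ := lab_inr_num P n
      rw [hm] at hb
      cases hb

/-! ## Equivariance -/

lemma Gen_act (g : Equiv.Perm ℕ) (P : Setoid (ℕ ⊕ ℕ)) (a : ℕ ⊕ ℕ) :
    Gen (actP g P) (act g a) ↔ Gen P a := by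
  unfold Gen
  have h : {d : ℕ | ¬ actP g P (Sum.inl d) (act g a)} = g '' {d : ℕ | ¬ P (Sum.inl d) a} := by
    ext d
    simp only [Set.mem_ofPred_eq, Set.mem_image]
    constructor
    · intro hd
      refine ⟨g⁻¹ d, ?_, by simp⟩
      intro hc
      apply hd
      have := (actP_act g P (Sum.inl (g⁻¹ d)) a).mpr hc
      simpa using this
    · rintro ⟨d', hd', rfl⟩ hc
      apply hd'
      exact (actP_act g P (Sum.inl d') a).mp hc
  rw [h]
  exact Set.finite_image_iff g.injective.injOn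

lemma mn_act (g : Equiv.Perm ℕ) (P : Setoid (ℕ ⊕ ℕ)) (a : ℕ ⊕ ℕ) :
    mn (actP g P) (act g a) = mn P a := by
  unfold mn
  congr 1
  ext n
  exact actP_act g P a (Sum.inr n)

lemma bit_act (g : Equiv.Perm ℕ) (P : Setoid (ℕ ⊕ ℕ)) (j : ℕ) : bit (actP g P) j ↔ bit P j := by
  unfold bit
  have h1 : ∀ m n, actP g P (Sum.inr m) (Sum.inr n) ↔ P (Sum.inr m) (Sum.inr n) := fun m n =>
    actP_act g P (Sum.inr m) (Sum.inr n)
  have h2 : ∀ m, Gen (actP g P) (Sum.inr m) ↔ Gen P (Sum.inr m) := fun m =>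
    Gen_act g P (Sum.inr m)
  rw [h1, h2]

/-- action on labels -/
def gLab (g : Equiv.Perm ℕ) : Lab → Lab
  | Lab.pt a => Lab.pt (act g a)
  | Lab.num n => Lab.num n
  | Lab.blk S => Lab.blk (act g '' S)

lemma act_injective (g : Equiv.Perm ℕ) : Function.Injective (act g) := by
  intro a b h
  have := congrArg (act g⁻¹) h
  simpa using this

lemma gLab_injective (g : Equiv.Perm ℕ) : Function.Injective (gLab g) := by
  intro a b h
  cases a <;> cases b <;> simp only [gLab] at h <;> first | cases h | skip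
  · rename_i a b
    injection h with h
    rw [act_injective g h]
  · rfl
  · rename_i a b
    injection h with h
    rw [(Set.image_injective.mpr (act_injective g)) h]

lemma forall_act (g : Equiv.Perm ℕ) (p : ℕ ⊕ ℕ → Prop) : (∀ b, p b) ↔ ∀ b, p (act g b) := by
  constructor
  · intro h b
    exact h _
  · intro h b
    have := h (act g⁻¹ b)
    simpa using this

lemma lab_act (g : Equiv.Perm ℕ) (P : Setoid (ℕ ⊕ ℕ)) (a : ℕ ⊕ ℕ) :
    lab (actP g P) (act g a) = gLab g (lab P a) := by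
  rcases a with d | n
  · have hgen := Gen_act g P (Sum.inl d)
    have hsing : (∀ b, actP g P (act g (Sum.inl d)) b → b = act g (Sum.inl d)) ↔
        (∀ b, P (Sum.inl d) b → b = Sum.inl d) := by
      rw [forall_act g]
      refine forall_congr' fun b => ?_
      rw [actP_act, (act_injective g).eq_iff]
    have hex : (∃ n, actP g P (act g (Sum.inl d)) (Sum.inr n)) ↔
        ∃ n, P (Sum.inl d) (Sum.inr n) := by
      refine exists_congr fun n => ?_
      exact actP_act g P (Sum.inl d) (Sum.inr n)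
    rcases lab_inl_cases P d with ⟨h, hl⟩ | ⟨h, h2, hl⟩ | ⟨h, ⟨n, hn⟩, hl⟩ | ⟨h, h2, h3, hl⟩
    · rw [hl]
      exact lab_gen (hgen.mpr h)
    · rw [hl]
      exact lab_single (fun hc => h (hgen.mp hc)) (hsing.mpr h2)
    · rw [hl]
      have h4 := lab_num (P := actP g P) (d := g d) (n := n) (fun hc => h (hgen.mp hc))
        ((actP_act g P (Sum.inl d) (Sum.inr n)).mpr hn)
      have h5 := mn_act g P (Sum.inl d)
      simp only [act_inl] at h5 ⊢
      rw [h4, h5]
      rfl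
    · rw [hl]
      have h4 := lab_blk (P := actP g P) (d := g d) (fun hc => h (hgen.mp hc))
        (fun hc => h2 (hsing.mp hc)) (fun hc => h3 (hex.mp hc))
      simp only [act_inl, gLab]
      rw [h4]
      congr 1
      ext b
      simp only [Set.mem_ofPred_eq, Set.mem_image]
      constructor
      · intro hb
        refine ⟨act g⁻¹ b, ?_, by simp⟩
        have : actP g P (act g (Sum.inl d)) (act g (act g⁻¹ b)) := by simpa using hb
        exact (actP_act g P _ _).mp this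
      · rintro ⟨b', hb', rfl⟩
        exact (actP_act g P (Sum.inl d) b').mpr hb'
  · simp only [act_inr, lab]
    have h := bit_act g P (n / 4)
    by_cases hb : n % 4 = 3 ∧ bit P (n / 4)
    · rw [if_pos hb, if_pos ⟨hb.1, h.mpr hb.2⟩]
      rfl
    · rw [if_neg hb, if_neg (fun hc => hb ⟨hc.1, h.mp hc.2⟩)]
      rfl

lemma code_act (g : Equiv.Perm ℕ) (P : Setoid (ℕ ⊕ ℕ)) : code (actP g P) = actP g (code P) := by
  apply setoid_ext
  intro a b
  rw [actP_apply, code_iff, code_iff]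
  have ha := lab_act g P (act g⁻¹ a)
  have hb := lab_act g P (act g⁻¹ b)
  rw [act_act_inv] at ha hb
  rw [ha, hb]
  exact (gLab_injective g).eq_iff

/-- finite sets are symmetric -/
lemma finite_symm {S : Set (ℕ ⊕ ℕ)} (hS : S.Finite) :
    ∃ H ∈ MM.F, ∀ g ∈ H, act (g : Equiv.Perm ℕ) '' S = S := by
  have h1 : {d : ℕ | Sum.inl d ∈ S}.Finite :=
    hS.preimage (Sum.inl_injective.injOn)
  obtain ⟨B, hB⟩ := h1.bddAbove
  refine ⟨HH B, ⟨B, le_rfl⟩, ?_⟩
  rintro g ⟨hg, -⟩
  have hfix : ∀ a ∈ S, act (g : Equiv.Perm ℕ) a = a := by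
    intro a ha
    rcases a with d | n
    · have : d ≤ B := hB ha
      simp only [act_inl]
      rw [hg d (this.trans_lt Nat.lt_two_pow_self)]
    · rfl
  ext a
  constructor
  · rintro ⟨b, hb, rfl⟩
    rw [hfix b hb]
    exact hb
  · intro ha
    exact ⟨a, ha, hfix a ha⟩

lemma code_mem {P : Setoid (ℕ ⊕ ℕ)} (hP : P ∈ PartFin MM) : code P ∈ Finitary MM := by
  refine ⟨⟨?_, fun a => finite_symm (code_finite hP a)⟩, code_finite hP⟩
  obtain ⟨⟨⟨H, hH, h⟩, -⟩, -⟩ := hP
  refine ⟨H, hH, fun g hg => ?_⟩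
  rw [← code_act, h g hg]

/-! ## Injectivity of the code -/

lemma mn_eq_of_rel {P : Setoid (ℕ ⊕ ℕ)} {a b : ℕ ⊕ ℕ} (h : P a b) : mn P a = mn P b := by
  unfold mn
  congr 1
  ext n
  exact ⟨fun h' => P.trans' (P.symm' h) h', fun h' => P.trans' h h'⟩

lemma rel_mn {P : Setoid (ℕ ⊕ ℕ)} {a : ℕ ⊕ ℕ} (h : ∃ n, P a (Sum.inr n)) :
    P a (Sum.inr (mn P a)) := Nat.sInf_mem h

lemma gen_iff_code (P : Setoid (ℕ ⊕ ℕ)) (d : ℕ) :
    Gen P (Sum.inl d) ↔ ∀ b, code P (Sum.inl d) b → b = Sum.inl d := by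
  constructor
  · intro h b hb
    rw [code_iff, lab_gen h] at hb
    rcases b with d' | n
    · rcases lab_inl_cases P d' with ⟨-, h'⟩ | ⟨-, -, h'⟩ | ⟨-, -, h'⟩ | ⟨-, -, -, h'⟩
      · rw [h'] at hb
        injection hb with hb
        exact hb.symm
      · rw [h'] at hb
        cases hb
      · rw [h'] at hb
        cases hb
      · rw [h'] at hb
        cases hb
    · obtain ⟨m, hm, -⟩ := lab_inr_num P n
      rw [hm] at hb
      cases hb
  · intro h
    by_contra hg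
    rcases lab_inl_cases P d with ⟨h1, -⟩ | ⟨-, -, h'⟩ | ⟨-, -, h'⟩ | ⟨h0, h1, h2, h'⟩
    · exact hg h1
    · have := h (Sum.inr (2 * 0)) (by rw [code_iff, h', lab_even])
      simp at this
    · have := h (Sum.inr (2 * (mn P (Sum.inl d) + 1))) (by
        rw [code_iff, h', lab_even]; rfl)
      simp at this
    · apply h1
      intro b hb
      rcases b with d' | n
      · apply h
        rw [code_iff, h']
        have hd' : ¬ Gen P (Sum.inl d') := fun hc => h0 (Gen_of_rel (P.symm' hb) hc)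
        have h3 : ¬ ∃ n, P (Sum.inl d') (Sum.inr n) := by
          rintro ⟨n, hn⟩
          exact h2 ⟨n, P.trans' hb hn⟩
        have h4 : ¬ ∀ b, P (Sum.inl d') b → b = Sum.inl d' := by
          intro hc
          apply h1
          have h5 := hc _ (P.symm' hb)
          intro b' hb'
          rw [h5] at hb' ⊢
          exact hc b' hb'
        rw [lab_blk hd' h4 h3]
        congr 1
        ext b'
        exact ⟨fun h6 => P.trans' (P.symm' hb) h6, fun h6 => P.trans' hb h6⟩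
      · exact (h2 ⟨n, hb⟩).elim

lemma bit_even (P : Setoid (ℕ ⊕ ℕ)) (m n : ℕ) :
    bit P (2 * Nat.pair m n) ↔ P (Sum.inr m) (Sum.inr n) := by
  unfold bit
  have h1 : 2 * Nat.pair m n % 2 = 0 := by omega
  have h2 : 2 * Nat.pair m n / 2 = Nat.pair m n := by omega
  rw [h1, h2]
  simp

lemma bit_odd (P : Setoid (ℕ ⊕ ℕ)) (m : ℕ) : bit P (2 * m + 1) ↔ Gen P (Sum.inr m) := by
  unfold bit
  have h1 : (2 * m + 1) % 2 = 1 := by omega
  have h2 : (2 * m + 1) / 2 = m := by omega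
  rw [h1, h2]
  simp

/-- relation between an atom and a natural number, read off the code -/
lemma rel_lr_iff (P : Setoid (ℕ ⊕ ℕ)) (d n : ℕ) : P (Sum.inl d) (Sum.inr n) ↔
    (Gen P (Sum.inl d) ∧ Gen P (Sum.inr n)) ∨
    (¬ Gen P (Sum.inl d) ∧ code P (Sum.inl d) (Sum.inr (2 * (mn P (Sum.inr n) + 1)))) := by
  constructor
  · intro h
    by_cases hg : Gen P (Sum.inl d)
    · exact Or.inl ⟨hg, Gen_of_rel h hg⟩
    · refine Or.inr ⟨hg, ?_⟩
      rw [code_iff, lab_num hg h, lab_even, mn_eq_of_rel h]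
      rfl
  · rintro (⟨h1, h2⟩ | ⟨h1, h2⟩)
    · exact rel_of_Gen h1 h2
    · rw [code_iff, lab_even] at h2
      rcases lab_inl_cases P d with ⟨h3, -⟩ | ⟨-, -, h'⟩ | ⟨-, h4, h'⟩ | ⟨-, -, -, h'⟩
      · exact (h1 h3).elim
      · rw [h'] at h2
        injection h2 with h2
        omega
      · rw [h'] at h2
        injection h2 with h2
        have h5 : mn P (Sum.inl d) = mn P (Sum.inr n) := by omega
        have h6 := rel_mn h4
        have h7 := rel_mn (P := P) (a := Sum.inr n) ⟨n, P.refl' _⟩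
        rw [h5] at h6
        exact P.trans' h6 (P.symm' h7)
      · rw [h'] at h2
        cases h2

/-- relation between two atoms, read off the code -/
lemma rel_ll_iff (P : Setoid (ℕ ⊕ ℕ)) (d d' : ℕ) : P (Sum.inl d) (Sum.inl d') ↔
    d = d' ∨ (Gen P (Sum.inl d) ∧ Gen P (Sum.inl d')) ∨
    (¬ Gen P (Sum.inl d) ∧ ¬ Gen P (Sum.inl d') ∧ code P (Sum.inl d) (Sum.inl d') ∧
      ¬ code P (Sum.inl d) (Sum.inr (2 * 0))) := by
  constructor
  · intro h
    by_cases hdd : d = d'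
    · exact Or.inl hdd
    right
    by_cases hg : Gen P (Sum.inl d)
    · exact Or.inl ⟨hg, Gen_of_rel h hg⟩
    · have hg' : ¬ Gen P (Sum.inl d') := fun hc => hg (Gen_of_rel (P.symm' h) hc)
      refine Or.inr ⟨hg, hg', ?_⟩
      have hns : ¬ ∀ b, P (Sum.inl d) b → b = Sum.inl d := by
        intro hc
        have := hc _ h
        injection this with this
        exact hdd this.symm
      have hns' : ¬ ∀ b, P (Sum.inl d') b → b = Sum.inl d' := by
        intro hc
        have := hc _ (P.symm' h)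
        injection this with this
        exact hdd this
      by_cases h3 : ∃ n, P (Sum.inl d) (Sum.inr n)
      · obtain ⟨n, hn⟩ := h3
        rw [code_iff, code_iff, lab_even, lab_num hg hn, lab_num hg' (P.trans' (P.symm' h) hn),
          mn_eq_of_rel h]
        refine ⟨rfl, fun hc => ?_⟩
        injection hc with hc
        omega
      · have h3' : ¬ ∃ n, P (Sum.inl d') (Sum.inr n) := by
          rintro ⟨n, hn⟩
          exact h3 ⟨n, P.trans' h hn⟩
        rw [code_iff, code_iff, lab_even, lab_blk hg hns h3, lab_blk hg' hns' h3']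
        refine ⟨?_, fun hc => by cases hc⟩
        congr 1
        ext b
        exact ⟨fun h6 => P.trans' (P.symm' h) h6, fun h6 => P.trans' h h6⟩
  · rintro (rfl | ⟨h1, h2⟩ | ⟨h1, h2, h3, h4⟩)
    · exact P.refl' _
    · exact rel_of_Gen h1 h2
    · rw [code_iff] at h3
      rw [code_iff, lab_even] at h4
      rcases lab_inl_cases P d with ⟨h5, -⟩ | ⟨-, -, h'⟩ | ⟨-, h5, h'⟩ | ⟨-, -, -, h'⟩
      · exact (h1 h5).elim
      · exact (h4 h').elim
      · rcases lab_inl_cases P d' with ⟨h6, -⟩ | ⟨-, -, h''⟩ | ⟨-, h6, h''⟩ | ⟨-, -, -, h''⟩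
        · exact (h2 h6).elim
        · rw [h', h''] at h3
          injection h3 with h3
          omega
        · rw [h', h''] at h3
          injection h3 with h3
          have h7 : mn P (Sum.inl d) = mn P (Sum.inl d') := by omega
          have h8 := rel_mn h5
          have h9 := rel_mn h6
          rw [h7] at h8
          exact P.trans' h8 (P.symm' h9)
        · rw [h', h''] at h3
          cases h3
      · rcases lab_inl_cases P d' with ⟨h6, -⟩ | ⟨-, -, h''⟩ | ⟨-, h6, h''⟩ | ⟨-, -, -, h''⟩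
        · exact (h2 h6).elim
        · rw [h', h''] at h3
          cases h3
        · rw [h', h''] at h3
          cases h3
        · rw [h', h''] at h3
          injection h3 with h3
          have h7 : (Sum.inl d' : ℕ ⊕ ℕ) ∈ {b | P (Sum.inl d') b} := P.refl' _
          rw [← h3] at h7
          exact h7

lemma code_inj {P P' : Setoid (ℕ ⊕ ℕ)} (h : code P = code P') : P = P' := by
  have hbit : ∀ j, bit P j ↔ bit P' j := fun j => by rw [bit_iff, bit_iff, h]
  have hrr : ∀ m n, P (Sum.inr m) (Sum.inr n) ↔ P' (Sum.inr m) (Sum.inr n) := fun m n => by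
    rw [← bit_even, ← bit_even, hbit]
  have hgr : ∀ m, Gen P (Sum.inr m) ↔ Gen P' (Sum.inr m) := fun m => by
    rw [← bit_odd, ← bit_odd, hbit]
  have hgl : ∀ d, Gen P (Sum.inl d) ↔ Gen P' (Sum.inl d) := fun d => by
    rw [gen_iff_code, gen_iff_code, h]
  have hmn : ∀ n, mn P (Sum.inr n) = mn P' (Sum.inr n) := by
    intro n
    unfold mn
    congr 1
    ext m
    exact hrr n m
  have hlr : ∀ d n, P (Sum.inl d) (Sum.inr n) ↔ P' (Sum.inl d) (Sum.inr n) := fun d n => by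
    rw [rel_lr_iff P, rel_lr_iff P', hgl, hgr, hmn, h]
  have hll : ∀ d d', P (Sum.inl d) (Sum.inl d') ↔ P' (Sum.inl d) (Sum.inl d') := fun d d' => by
    rw [rel_ll_iff P, rel_ll_iff P', hgl, hgl, h]
  apply setoid_ext
  intro a b
  rcases a with d | n
  · rcases b with d' | n'
    · exact hll d d'
    · exact hlr d n'
  · rcases b with d' | n'
    · rw [Setoid.comm' P, Setoid.comm' P']
      exact hlr d' n
    · exact hrr n n'

/-! ## No bijection -/

/-- the finitary partition `R_n` on the atoms, singletons on `ω` -/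
def RR (n : ℕ) : Setoid (ℕ ⊕ ℕ) where
  r a b := a = b ∨ ∃ x y : ℕ, a = Sum.inl x ∧ b = Sum.inl y ∧ x ^^^ y < 2 ^ n
  iseqv := by
    constructor
    · intro a
      exact Or.inl rfl
    · rintro a b (rfl | ⟨x, y, rfl, rfl, h⟩)
      · exact Or.inl rfl
      · exact Or.inr ⟨y, x, rfl, rfl, by rwa [Nat.xor_comm]⟩
    · rintro a b c (rfl | ⟨x, y, rfl, rfl, h⟩) h2
      · exact h2
      · rcases h2 with rfl | ⟨x', z, h3, rfl, h4⟩
        · exact Or.inr ⟨x, y, rfl, rfl, h⟩
        · injection h3 with h3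
          subst h3
          refine Or.inr ⟨x, z, rfl, rfl, ?_⟩
          have : x ^^^ z = (x ^^^ y) ^^^ (y ^^^ z) := by
            rw [Nat.xor_assoc, ← Nat.xor_assoc y y z, Nat.xor_self, Nat.zero_xor]
          rw [this]
          exact xor_lt h h4

lemma RR_ll (n x y : ℕ) : RR n (Sum.inl x) (Sum.inl y) ↔ x ^^^ y < 2 ^ n := by
  constructor
  · rintro (h | ⟨x', y', h1, h2, h3⟩)
    · injection h with h
      subst h
      rw [Nat.xor_self]
      positivity
    · injection h1 with h1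
      injection h2 with h2
      subst h1
      subst h2
      exact h3
  · intro h
    exact Or.inr ⟨x, y, rfl, rfl, h⟩

lemma RR_finite (n : ℕ) (a : ℕ ⊕ ℕ) : {b | RR n a b}.Finite := by
  rcases a with x | m
  · have h1 : {z | x ^^^ z < 2 ^ n}.Finite := by
      refine ((Set.finite_Iio (2 ^ n)).image (fun w => x ^^^ w)).subset ?_
      intro z hz
      refine ⟨x ^^^ z, hz, ?_⟩
      simp only
      rw [← Nat.xor_assoc, Nat.xor_self, Nat.zero_xor]
    refine ((h1.image Sum.inl).union (Set.finite_singleton (Sum.inl x))).subset ?_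
    rintro b (rfl | ⟨x', y, h1, rfl, h3⟩)
    · exact Or.inr rfl
    · injection h1 with h1
      subst h1
      exact Or.inl ⟨y, h3, rfl⟩
  · refine (Set.finite_singleton (Sum.inr m)).subset ?_
    rintro b (rfl | ⟨x', y, h1, rfl, h3⟩)
    · rfl
    · cases h1

lemma RR_fix {n : ℕ} {g : FS} (hg : g ∈ HH n) : actP (g : Equiv.Perm ℕ) (RR n) = RR n := by
  have hg' := (HH n).inv_mem hg
  obtain ⟨-, h2⟩ := hg'
  apply setoid_ext
  intro a b
  rw [actP_apply]
  rcases a with x | m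
  · rcases b with y | m'
    · simp only [act_inl]
      rw [RR_ll, RR_ll]
      exact (h2 n le_rfl x y).symm
    · simp only [act_inl, act_inr]
      constructor
      · rintro (h | ⟨x', y', h1, h2, h3⟩)
        · cases h
        · cases h2
      · rintro (h | ⟨x', y', h1, h2, h3⟩)
        · cases h
        · cases h2
  · rcases b with y | m'
    · simp only [act_inl, act_inr]
      constructor
      · rintro (h | ⟨x', y', h1, h2, h3⟩)
        · cases h
        · cases h1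
      · rintro (h | ⟨x', y', h1, h2, h3⟩)
        · cases h
        · cases h1
    · simp only [act_inr]

lemma RR_mem (n : ℕ) : RR n ∈ Finitary MM :=
  ⟨⟨⟨HH n, ⟨n, le_rfl⟩, fun _ hg => RR_fix hg⟩, fun a => finite_symm (RR_finite n a)⟩,
    RR_finite n⟩

lemma actP_mul (g h : Equiv.Perm D) (P : Setoid (D ⊕ ℕ)) :
    actP (g * h) P = actP g (actP h P) := by
  apply setoid_ext
  intro a b
  rw [actP_apply, actP_apply, actP_apply, mul_inv_rev, act_mul, act_mul]

lemma conj_fix (M : FMData D) {H : Subgroup M.G} (hH : H ∈ M.F) (g : M.G) :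
    ∃ K ∈ M.F, ∀ k ∈ K, g⁻¹ * k * g ∈ H := by
  refine ⟨_, M.conj g H hH, ?_⟩
  intro k hk
  rw [Subgroup.mem_map] at hk
  obtain ⟨h, hh, rfl⟩ := hk
  have : g⁻¹ * ((MulAut.conj g).toMonoidHom h) * g = h := by
    simp [MulAut.conj_apply, mul_assoc]
  rw [this]
  exact hh

lemma PartFin_act (M : FMData D) {P : Setoid (D ⊕ ℕ)} (hP : P ∈ PartFin M) (g : M.G) :
    actP (g : Equiv.Perm D) P ∈ PartFin M := by
  obtain ⟨⟨⟨H, hH, h1⟩, h2⟩, h3⟩ := hP
  refine ⟨⟨?_, ?_⟩, ?_⟩
  · obtain ⟨K, hK, hKH⟩ := conj_fix M hH g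
    refine ⟨K, hK, fun k hk => ?_⟩
    have h4 := h1 _ (hKH k hk)
    have h5 : (k : Equiv.Perm D) * (g : Equiv.Perm D) =
        (g : Equiv.Perm D) * ((g⁻¹ * k * g : M.G) : Equiv.Perm D) := by
      simp [mul_assoc]
    rw [← actP_mul, h5, actP_mul, h4]
  · intro a
    obtain ⟨H', hH', h4⟩ := h2 (act (g : Equiv.Perm D)⁻¹ a)
    obtain ⟨K, hK, hKH⟩ := conj_fix M hH' g
    refine ⟨K, hK, fun k hk => ?_⟩
    have h5 := h4 _ (hKH k hk)
    have h6 : {b | actP (g : Equiv.Perm D) P a b} =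
        act (g : Equiv.Perm D) '' {b | P (act (g : Equiv.Perm D)⁻¹ a) b} := by
      ext b
      simp only [Set.mem_ofPred_eq, Set.mem_image]
      constructor
      · intro hb
        exact ⟨act (g : Equiv.Perm D)⁻¹ b, hb, by simp⟩
      · rintro ⟨b', hb', rfl⟩
        rw [actP_apply]
        simpa using hb'
    rw [h6]
    conv_rhs => rw [← h5]
    rw [Set.image_image, Set.image_image]
    apply Set.image_congr
    intro b _
    rw [← act_mul, ← act_mul]
    congr 1
    simp [mul_assoc]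
  · have : Function.Surjective (fun q : Quotient P =>
        Quotient.lift (fun a => (Quotient.mk (actP (g : Equiv.Perm D) P)
          (act (g : Equiv.Perm D) a))) (by
          intro a b hab
          apply Quotient.sound
          exact (actP_act _ P a b).mpr hab) q) := by
      intro q
      obtain ⟨a, rfl⟩ := Quotient.exists_rep q
      refine ⟨Quotient.mk P (act (g : Equiv.Perm D)⁻¹ a), ?_⟩
      simp
    exact Finite.of_surjective _ this

lemma not_eqModel : ¬ EqModel MM (PartFin MM) (Finitary MM) := by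
  rintro ⟨f, hf, H, ⟨k, hk⟩, hequi⟩
  obtain ⟨P, hP, hfP⟩ := hf.surjOn (RR_mem (k + 1))
  -- P is fixed by HH (k+1)
  have hfix : ∀ g ∈ HH (k + 1), actP (g : Equiv.Perm ℕ) P = P := by
    intro g hg
    apply hf.injOn (PartFin_act MM hP g) hP
    rw [hequi g (hk (HH_anti (Nat.le_succ k) hg)) P hP, hfP, RR_fix hg]
  -- all large atoms are in the generic block
  have hgen : ∀ x, ¬ x < 2 ^ (k + 1) → Gen P (Sum.inl x) := by
    intro x hx
    have hfin := (exists_Gen hP).union (Set.finite_Iio (2 ^ (k + 1)))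
    obtain ⟨y, hy⟩ := hfin.infinite_compl.nonempty
    simp only [Set.mem_compl_iff, Set.mem_union, Set.mem_ofPred_eq, not_or, not_not,
      Set.mem_Iio] at hy
    have h1 := hfix _ (swP_mem (k := k + 1) (x := y) (y := x) hy.2 hx)
    have h2 := (Gen_act (swP (k + 1) y x) P (Sum.inl y)).mpr hy.1
    simp only [act_inl, swP_apply, sw_x] at h2
    have h3 : actP (swP (k + 1) y x) P = P := h1
    rwa [h3] at h2
  -- the swap
  set x : ℕ := 2 ^ (k + 1) with hx
  set y : ℕ := 2 ^ (k + 2) with hy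
  have hxk : ¬ x < 2 ^ k := by
    have : 2 ^ k ≤ 2 ^ (k + 1) := Nat.pow_le_pow_right (by norm_num) (by omega)
    omega
  have hyk : ¬ y < 2 ^ k := by
    have : 2 ^ k ≤ 2 ^ (k + 2) := Nat.pow_le_pow_right (by norm_num) (by omega)
    omega
  have hmem := swP_mem hxk hyk
  have hlarge : ∀ z, sw k x y z ≠ z → ¬ z < 2 ^ (k + 1) := by
    intro z hz hlt
    apply hz
    rw [sw, if_neg]
    rintro (h | h)
    · have h1 : (z ^^^ x).testBit (k + 1) = false := by
        apply Nat.testBit_lt_two_pow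
        exact h.trans_le (Nat.pow_le_pow_right (by norm_num) (by omega))
      rw [Nat.testBit_xor, Nat.testBit_lt_two_pow hlt, hx, Nat.testBit_two_pow_self] at h1
      simp at h1
    · have h1 : (z ^^^ y).testBit (k + 2) = false := by
        apply Nat.testBit_lt_two_pow
        exact h.trans_le (Nat.pow_le_pow_right (by norm_num) (by omega))
      have hlt' : z < 2 ^ (k + 2) := hlt.trans_le (Nat.pow_le_pow_right (by norm_num) (by omega))
      rw [Nat.testBit_xor, Nat.testBit_lt_two_pow hlt', hy, Nat.testBit_two_pow_self] at h1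
      simp at h1
  have hrel : ∀ a, P (act (swP k x y) a) a := by
    intro a
    rcases a with z | n
    · simp only [act_inl, swP_apply]
      by_cases hz : sw k x y z = z
      · rw [hz]
      · have h1 := hlarge z hz
        have h2 := hlarge (sw k x y z) (by rw [sw_sw]; exact fun h => hz h.symm)
        exact rel_of_Gen (hgen _ h2) (hgen _ h1)
    · exact P.refl' _
  have hinv : (swP k x y)⁻¹ = swP k x y := by
    ext z
    rw [Equiv.Perm.inv_eq_iff_eq]
    exact (sw_sw k x y z).symm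
  have hPfix : actP (swP k x y) P = P := by
    apply setoid_ext
    intro a b
    rw [actP_apply, hinv]
    constructor
    · intro h
      exact P.trans' (P.symm' (hrel a)) (P.trans' h (hrel b))
    · intro h
      exact P.trans' (hrel a) (P.trans' h (P.symm' (hrel b)))
  have hQ : actP (swP k x y) (RR (k + 1)) = RR (k + 1) := by
    have := hequi _ (hk hmem) P hP
    have h2 : f (actP (swP k x y) P) = actP (swP k x y) (f P) := this
    rw [hPfix, hfP] at h2
    exact h2.symm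
  have h1 : RR (k + 1) (Sum.inl x) (Sum.inl (x ^^^ 2 ^ k)) := by
    rw [RR_ll, ← Nat.xor_assoc, Nat.xor_self, Nat.zero_xor]
    exact Nat.pow_lt_pow_right (by norm_num) (by omega)
  rw [← hQ, actP_apply, hinv] at h1
  simp only [act_inl, swP_apply, sw_x] at h1
  have h2 : sw k x y (x ^^^ 2 ^ k) = x ^^^ 2 ^ k := by
    rw [sw, if_neg]
    rintro (h | h)
    · have h3 : x ^^^ 2 ^ k ^^^ x = 2 ^ k := by
        rw [Nat.xor_comm x, Nat.xor_assoc, Nat.xor_self, Nat.xor_zero]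
      rw [h3] at h
      exact lt_irrefl _ h
    · have h3 : (x ^^^ 2 ^ k ^^^ y).testBit (k + 2) = false := by
        apply Nat.testBit_lt_two_pow
        exact h.trans_le (Nat.pow_le_pow_right (by norm_num) (by omega))
      rw [Nat.testBit_xor, Nat.testBit_xor, hx, hy, Nat.testBit_two_pow_self,
        Nat.testBit_two_pow, Nat.testBit_two_pow] at h3
      simp at h3
  rw [h2, RR_ll] at h1
  have h3 : (y ^^^ (x ^^^ 2 ^ k)).testBit (k + 2) = false := by
    apply Nat.testBit_lt_two_pow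
    exact h1.trans_le (Nat.pow_le_pow_right (by norm_num) (by omega))
  rw [Nat.testBit_xor, Nat.testBit_xor, hx, hy, Nat.testBit_two_pow_self,
    Nat.testBit_two_pow, Nat.testBit_two_pow] at h3
  simp at h3

lemma main : ∃ M : FMData ℕ,
    LeModel M (PartFin M) (Finitary M) ∧ ¬ EqModel M (PartFin M) (Finitary M) :=
  ⟨MM, ⟨code, fun _ hP => code_mem hP, fun _ _ _ _ h => code_inj h, ⊤, MM.top_mem,
    fun g _ P _ => code_act g P⟩, not_eqModel⟩

end Pool.Agent.Lib.MP_fe2f0d_lc
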